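import Pool.Agent.Y571.NC.Stm

/-! Project NC (helper571), job NC-PFAM: `p`-groups with a commutative subgroup of index `p` and an
Abelianisation of order at most `p ^ 2`. -/

set_option autoImplicit false

namespace Pool.Agent.Y145.NCP

open Pool.Agent.Y571.NC

/-- Functions `v` on `ZMod p` with sum zero, together with a shift `s`. -/
@[ext] structure Grp (p n : ℕ) [NeZero p] where
  v : ZMod p → ZMod n
  s : ZMod p
  h : ∑ i, v i = 0

section

variable {p n : ℕ} [NeZero p]

lemma sum_shift (f : ZMod p → ZMod n) (s : ZMod p) : ∑ i, f (i + s) = ∑ i, f i :=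
  Equiv.sum_comp (Equiv.addRight s) f

instance : Mul (Grp p n) := ⟨fun a b => ⟨fun i => a.v i + b.v (i + a.s), a.s + b.s, by
  rw [Finset.sum_add_distrib, a.h, zero_add, sum_shift b.v, b.h]⟩⟩

instance : One (Grp p n) := ⟨⟨fun _ => 0, 0, by simp⟩⟩

instance : Inv (Grp p n) := ⟨fun a => ⟨fun i => - a.v (i + -a.s), -a.s, by
  rw [Finset.sum_neg_distrib, sum_shift a.v, a.h, neg_zero]⟩⟩

lemma mul_v (a b : Grp p n) (i : ZMod p) : (a * b).v i = a.v i + b.v (i + a.s) := rfl
lemma mul_s (a b : Grp p n) : (a * b).s = a.s + b.s := rfl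
lemma one_v (i : ZMod p) : (1 : Grp p n).v i = 0 := rfl
lemma one_s : (1 : Grp p n).s = 0 := rfl
lemma inv_v (a : Grp p n) (i : ZMod p) : (a⁻¹).v i = - a.v (i + -a.s) := rfl
lemma inv_s (a : Grp p n) : (a⁻¹).s = - a.s := rfl

instance : Group (Grp p n) := Group.ofLeftAxioms
  (by
    intro a b c
    refine Grp.ext (funext fun i => ?_) ?_
    · rw [mul_v, mul_v, mul_v, mul_v, mul_s, add_assoc, add_assoc]
    · rw [mul_s, mul_s, mul_s, mul_s, add_assoc])
  (by
    intro a
    refine Grp.ext (funext fun i => ?_) ?_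
    · rw [mul_v, one_v, one_s, add_zero, zero_add]
    · rw [mul_s, one_s, zero_add])
  (by
    intro a
    refine Grp.ext (funext fun i => ?_) ?_
    · rw [mul_v, inv_v, inv_s, one_v, neg_add_cancel]
    · rw [mul_s, inv_s, one_s, neg_add_cancel])

instance [NeZero n] : Finite (Grp p n) :=
  Finite.of_injective (fun a : Grp p n => (a.v, a.s)) (fun a b hab => by
    rw [Prod.mk.injEq] at hab
    exact Grp.ext hab.1 hab.2)

variable (p n)

/-- The sum of the values. -/
def sumHom : (ZMod p → ZMod n) →+ ZMod n where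
  toFun x := ∑ i, x i
  map_zero' := by simp
  map_add' x y := by simp [Finset.sum_add_distrib]

/-- The shift. -/
def sH : Grp p n →* Multiplicative (ZMod p) where
  toFun a := Multiplicative.ofAdd a.s
  map_one' := rfl
  map_mul' _ _ := rfl

/-- The underlying set. -/
def eqv : Grp p n ≃ (sumHom p n).ker × ZMod p where
  toFun a := (⟨a.v, a.h⟩, a.s)
  invFun q := ⟨q.1.1, q.2, q.1.2⟩
  left_inv _ := rfl
  right_inv _ := rfl

lemma card_ker [NeZero n] : Nat.card (sumHom p n).ker * n = n ^ p := by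
  have h1 := AddSubgroup.card_mul_index (sumHom p n).ker
  have h2 : (sumHom p n).ker.index = n := by
    rw [AddSubgroup.index_ker]
    have h3 : (sumHom p n).range = ⊤ := by
      rw [AddMonoidHom.range_eq_top]
      intro c
      refine ⟨Pi.single 0 c, ?_⟩
      show ∑ i, (Pi.single 0 c : ZMod p → ZMod n) i = c
      rw [Finset.sum_pi_single']
      simp
    rw [h3, AddSubgroup.card_top, Nat.card_zmod]
  rw [h2, Nat.card_fun, Nat.card_zmod, Nat.card_zmod] at h1
  exact h1

/-- The homomorphism into the Abelianisation. -/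
def psi : (sumHom p n).ker →+ Additive (Abelianization (Grp p n)) where
  toFun x := Additive.ofMul (Abelianization.of (⟨x.1, 0, x.2⟩ : Grp p n))
  map_zero' := by
    have : (⟨(0 : (sumHom p n).ker).1, 0, (0 : (sumHom p n).ker).2⟩ : Grp p n) = 1 := rfl
    rw [this, map_one, ofMul_one]
  map_add' x y := by
    have : (⟨(x + y).1, 0, (x + y).2⟩ : Grp p n) = ⟨x.1, 0, x.2⟩ * ⟨y.1, 0, y.2⟩ := by
      refine Grp.ext (funext fun i => ?_) ?_
      · rw [mul_v]
        show x.1 i + y.1 i = x.1 i + y.1 (i + 0)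
        rw [add_zero]
      · rw [mul_s, add_zero]
    rw [this, map_mul, ofMul_mul]

/-- the element `δ_i - δ_j` -/
def ee (i j : ZMod p) : (sumHom p n).ker :=
  ⟨Pi.single i 1 - Pi.single j 1, by
    rw [AddMonoidHom.mem_ker, map_sub]
    have h1 : ∀ i : ZMod p, sumHom p n (Pi.single i 1) = 1 := by
      intro i
      show ∑ k, (Pi.single i 1 : ZMod p → ZMod n) k = 1
      rw [Finset.sum_pi_single']
      simp
    rw [h1, h1, sub_self]⟩

lemma psi_shift (i : ZMod p) : psi p n (ee p n (i + 1) (i + 1 + 1)) = psi p n (ee p n i (i + 1)) := by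
  have h1 : (⟨0, 1, by simp⟩ : Grp p n) * ⟨(ee p n (i + 1) (i + 1 + 1)).1, 0, (ee p n (i + 1) (i + 1 + 1)).2⟩ =
      ⟨(ee p n i (i + 1)).1, 0, (ee p n i (i + 1)).2⟩ * ⟨0, 1, by simp⟩ := by
    refine Grp.ext (funext fun j => ?_) ?_
    · rw [mul_v, mul_v]
      show 0 + ((Pi.single (i + 1) 1 : ZMod p → ZMod n) (j + 1) -
        (Pi.single (i + 1 + 1) 1 : ZMod p → ZMod n) (j + 1)) =
        ((Pi.single i 1 : ZMod p → ZMod n) j - (Pi.single (i + 1) 1 : ZMod p → ZMod n) j) + 0
      rw [zero_add, add_zero]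
      simp only [Pi.single_apply, add_left_inj]
    · rw [mul_s, mul_s, add_zero, zero_add]
  have h2 := congrArg (Abelianization.of : Grp p n →* Abelianization (Grp p n)) h1
  rw [map_mul, map_mul, mul_comm] at h2
  exact congrArg Additive.ofMul (mul_right_cancel h2)

lemma psi_e (i : ZMod p) : psi p n (ee p n i (i + 1)) = psi p n (ee p n 0 1) := by
  have h1 : ∀ k : ℕ, psi p n (ee p n (k : ZMod p) ((k : ZMod p) + 1)) = psi p n (ee p n 0 1) := by
    intro k
    induction k with
    | zero => rw [Nat.cast_zero, zero_add]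
    | succ k ih =>
      rw [Nat.cast_succ, psi_shift, ih]
  have h2 := h1 i.val
  rwa [ZMod.natCast_zmod_val] at h2

lemma psi_f (i : ZMod p) : psi p n (ee p n i 0) ∈ AddSubgroup.zmultiples (psi p n (ee p n 0 1)) := by
  have h1 : ∀ k : ℕ, psi p n (ee p n (k : ZMod p) 0) ∈
      AddSubgroup.zmultiples (psi p n (ee p n 0 1)) := by
    intro k
    induction k with
    | zero =>
      have : ee p n ((0 : ℕ) : ZMod p) 0 = 0 := by
        apply Subtype.ext
        show (Pi.single ((0 : ℕ) : ZMod p) (1 : ZMod n) : ZMod p → ZMod n) -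
          (Pi.single 0 1 : ZMod p → ZMod n) = 0
        rw [Nat.cast_zero, sub_self]
      rw [this, map_zero]
      exact AddSubgroup.zero_mem _
    | succ k ih =>
      have : ee p n ((k + 1 : ℕ) : ZMod p) 0 = ee p n (k : ZMod p) 0 -
          ee p n (k : ZMod p) ((k : ZMod p) + 1) := by
        apply Subtype.ext
        show (Pi.single ((k + 1 : ℕ) : ZMod p) (1 : ZMod n) : ZMod p → ZMod n) -
          (Pi.single 0 1 : ZMod p → ZMod n) =
          ((Pi.single (k : ZMod p) (1 : ZMod n) : ZMod p → ZMod n) -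
            (Pi.single 0 1 : ZMod p → ZMod n)) -
            ((Pi.single (k : ZMod p) (1 : ZMod n) : ZMod p → ZMod n) -
              (Pi.single ((k : ZMod p) + 1) 1 : ZMod p → ZMod n))
        rw [Nat.cast_succ]
        abel
      rw [this, map_sub, psi_e]
      exact AddSubgroup.sub_mem _ ih (AddSubgroup.mem_zmultiples _)
  have h2 := h1 i.val
  rwa [ZMod.natCast_zmod_val] at h2

lemma psi_mem [NeZero n] (x : (sumHom p n).ker) :
    psi p n x ∈ AddSubgroup.zmultiples (psi p n (ee p n 0 1)) := by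
  have h1 : x = ∑ i : ZMod p, (x.1 i).val • ee p n i 0 := by
    apply Subtype.ext
    rw [AddSubgroup.val_finsetSum]
    funext j
    rw [Finset.sum_apply]
    have h2 : ∀ i : ZMod p, (((x.1 i).val • ee p n i 0 : (sumHom p n).ker) : ZMod p → ZMod n) j =
        (if j = i then x.1 i else 0) - x.1 i * (if j = 0 then 1 else 0) := by
      intro i
      show ((x.1 i).val • (Pi.single i (1 : ZMod n) - Pi.single 0 1 : ZMod p → ZMod n)) j = _
      rw [Pi.smul_apply, Pi.sub_apply, nsmul_eq_mul, ZMod.natCast_zmod_val, Pi.single_apply,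
        Pi.single_apply, mul_sub]
      congr 1
      split_ifs <;> simp
    rw [Finset.sum_congr rfl fun i _ => h2 i, Finset.sum_sub_distrib, ← Finset.sum_mul]
    have h3 : ∑ i, x.1 i = 0 := x.2
    rw [h3, zero_mul, sub_zero, Finset.sum_ite_eq]
    simp
  rw [h1, map_sum]
  refine AddSubgroup.sum_mem _ fun i _ => ?_
  rw [map_nsmul]
  exact AddSubgroup.nsmul_mem _ (psi_f p n i) _

lemma p_psi : p • psi p n (ee p n 0 1) = 0 := by
  have h1 : ∑ i : ZMod p, ee p n i (i + 1) = 0 := by
    apply Subtype.ext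
    rw [AddSubgroup.val_finsetSum]
    show ∑ i : ZMod p, (Pi.single i (1 : ZMod n) - Pi.single (i + 1) 1 : ZMod p → ZMod n) = 0
    rw [Finset.sum_sub_distrib, sub_eq_zero]
    exact (Equiv.sum_comp (Equiv.addRight (1 : ZMod p))
      (fun i => (Pi.single i (1 : ZMod n) : ZMod p → ZMod n))).symm
  have h2 := congrArg (psi p n) h1
  rw [map_sum, map_zero, Finset.sum_congr rfl fun i _ => psi_e p n i, Finset.sum_const,
    Finset.card_univ, ZMod.card] at h2
  exact h2

lemma t_pow (k : ℕ) : (⟨0, 1, by simp⟩ : Grp p n) ^ k = ⟨0, (k : ZMod p), by simp⟩ := by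
  induction k with
  | zero =>
    rw [pow_zero]
    refine Grp.ext (funext fun i => ?_) ?_
    · rfl
    · rw [one_s, Nat.cast_zero]
  | succ k ih =>
    rw [pow_succ, ih]
    refine Grp.ext (funext fun i => ?_) ?_
    · rw [mul_v]
      show (0 : ZMod n) + 0 = 0
      rw [add_zero]
    · rw [mul_s, Nat.cast_succ]

lemma card_ab [NeZero n] : Nat.card (Abelianization (Grp p n)) ≤ p ^ 2 := by
  have hp : 0 < p := Nat.pos_of_ne_zero (NeZero.ne p)
  set u := psi p n (ee p n 0 1) with hu
  set v : Additive (Abelianization (Grp p n)) :=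
    Additive.ofMul (Abelianization.of (⟨0, 1, by simp⟩ : Grp p n)) with hv
  have hv0 : p • v = 0 := by
    rw [hv, ← ofMul_pow, ← map_pow, t_pow]
    have : (⟨0, (p : ZMod p), by simp⟩ : Grp p n) = 1 := by
      refine Grp.ext (funext fun i => rfl) ?_
      rw [one_s]
      exact ZMod.natCast_self p
    rw [this, map_one, ofMul_one]
  have hfin : Finite (Additive (Abelianization (Grp p n))) :=
    inferInstanceAs (Finite (Abelianization (Grp p n)))
  have hs : Function.Surjective (fun q : AddSubgroup.zmultiples u × AddSubgroup.zmultiples v =>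
      ((q.1 : Additive (Abelianization (Grp p n))) + q.2)) := by
    intro a
    obtain ⟨g, hg⟩ := QuotientGroup.mk_surjective a.toMul
    have h1 : g = ⟨g.v, 0, g.h⟩ * (⟨0, 1, by simp⟩ : Grp p n) ^ g.s.val := by
      rw [t_pow]
      refine Grp.ext (funext fun i => ?_) ?_
      · rw [mul_v]
        show g.v i = g.v i + 0
        rw [add_zero]
      · rw [mul_s, zero_add]
        exact (ZMod.natCast_zmod_val g.s).symm
    refine ⟨(⟨psi p n ⟨g.v, g.h⟩, psi_mem p n _⟩, ⟨g.s.val • v, AddSubgroup.nsmul_mem_zmultiples _ _⟩), ?_⟩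
    show psi p n ⟨g.v, g.h⟩ + g.s.val • v = a
    have h2 : a = Additive.ofMul (Abelianization.of g) := by
      have h3 : Abelianization.of g = a.toMul := hg
      rw [h3]
      rfl
    rw [h2]
    conv_rhs => rw [h1]
    rw [map_mul, ofMul_mul, map_pow, ofMul_pow]
    rfl
  have h1 : Nat.card (AddSubgroup.zmultiples u) ≤ p := by
    rw [Nat.card_zmultiples]
    exact addOrderOf_le_of_nsmul_eq_zero hp (p_psi p n)
  have h2 : Nat.card (AddSubgroup.zmultiples v) ≤ p := by
    rw [Nat.card_zmultiples]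
    exact addOrderOf_le_of_nsmul_eq_zero hp hv0
  have h3 := Nat.card_le_card_of_surjective _ hs
  rw [Nat.card_prod] at h3
  calc Nat.card (Abelianization (Grp p n)) = Nat.card (Additive (Abelianization (Grp p n))) := rfl
    _ ≤ _ := h3
    _ ≤ p * p := Nat.mul_le_mul h1 h2
    _ = p ^ 2 := (sq p).symm

end

theorem pfam : S_PFAM := by
  intro p hp
  have hp0 : NeZero p := ⟨hp.ne_zero⟩
  have hn : ∀ m : ℕ, NeZero (p ^ m) := fun m => ⟨pow_ne_zero _ hp.ne_zero⟩
  refine ⟨fun m => Grp p (p ^ m), fun m => inferInstance, fun m => Fintype.ofFinite _,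
    fun m => (sH p (p ^ m)).ker, fun m => ⟨?_, ?_, ?_, ?_⟩⟩
  · intro a ha b hb
    have ha' : a.s = 0 := ha
    have hb' : b.s = 0 := hb
    refine Grp.ext (funext fun i => ?_) ?_
    · rw [mul_v, mul_v, ha', hb', add_zero, add_comm]
    · rw [mul_s, mul_s, add_comm]
  · rw [Subgroup.index_ker]
    have h3 : (sH p (p ^ m)).range = ⊤ := by
      rw [MonoidHom.range_eq_top]
      intro c
      exact ⟨⟨0, c.toAdd, by simp⟩, rfl⟩
    rw [h3, Subgroup.card_top]
    show Nat.card (ZMod p) = p
    exact Nat.card_zmod p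
  · have h1 := card_ker p (p ^ m)
    rw [Nat.card_congr (eqv p (p ^ m)), Nat.card_prod, Nat.card_zmod]
    have h2 : Nat.card (sumHom p (p ^ m)).ker = p ^ (m * (p - 1)) := by
      have h3 : 0 < p ^ m := pow_pos hp.pos m
      apply Nat.eq_of_mul_eq_mul_right h3
      rw [h1, ← pow_mul, ← pow_add]
      congr 1
      obtain ⟨q, hq⟩ : ∃ q, p = q + 1 := ⟨p - 1, by have := hp.pos; omega⟩
      rw [hq]
      simp only [Nat.add_sub_cancel]
      ring
    rw [h2, pow_succ]
  · exact card_ab p (p ^ m)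

end Pool.Agent.Y145.NCP
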